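import Mathlib

set_option maxHeartbeats 400000

namespace Pool.Agent.Results.MP_d51828_nt.TwoAdic

def v (n : ℕ) : ℕ := padicValNat 2 n.factorial

theorem v_even (m : ℕ) : v (2 * m) = v m + m := padicValNat_factorial_mul m

theorem v_odd (m : ℕ) : v (2 * m + 1) = v m + m := by
  rw [← v_even, v, v, Nat.factorial_succ, padicValNat.mul (by omega) (Nat.factorial_ne_zero _),
    padicValNat.eq_zero_of_not_dvd (by omega), zero_add]

theorem v_choose (n k : ℕ) (h : k ≤ n) : padicValNat 2 (n.choose k) + v k + v (n - k) = v n := by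
  rw [v, v, v, ← Nat.choose_mul_factorial_mul_factorial h,
    padicValNat.mul (mul_ne_zero (Nat.choose_pos h).ne' (Nat.factorial_ne_zero _))
      (Nat.factorial_ne_zero _),
    padicValNat.mul (Nat.choose_pos h).ne' (Nat.factorial_ne_zero _)]

theorem v_zero : v 0 = 0 := by simp [v]

theorem v_lt (n : ℕ) : n ≠ 0 → v n < n ∧ (v n + 1 = n → ∃ j, n = 2 ^ j) := by
  induction n using Nat.strong_induction_on with
  | _ n ih =>
    intro hn
    rcases Nat.even_or_odd' n with ⟨m, rfl | rfl⟩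
    · obtain ⟨h1, h2⟩ := ih m (by omega) (by omega)
      rw [v_even]
      refine ⟨by omega, fun h => ?_⟩
      obtain ⟨j, hj⟩ := h2 (by omega)
      exact ⟨j + 1, by rw [pow_succ]; omega⟩
    · rw [v_odd]
      by_cases m0 : m = 0
      · subst m0
        exact ⟨by simp [v_zero], fun _ => ⟨0, rfl⟩⟩
      · obtain ⟨h1, -⟩ := ih m (by omega) m0
        exact ⟨by omega, fun h => by omega⟩

theorem v_pow (j : ℕ) : v (2 ^ j) + 1 = 2 ^ j ∧ v (3 * 2 ^ j) + 2 = 3 * 2 ^ j := by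
  induction j with
  | zero =>
    have a0 := v_zero
    have a1 := v_odd 0
    have a2 := v_odd 1
    have a3 : v 1 = 0 := by simpa [a0] using a1
    have a4 : v 3 = 1 := by simpa [a3] using a2
    simp [a3, a4]
  | succ j ih =>
    rw [pow_succ', v_even, show 3 * (2 * 2 ^ j) = 2 * (3 * 2 ^ j) by ring, v_even]
    omega

theorem odd_choose (m : ℕ) : Odd ((2 * m + 1).choose (m + 1)) ↔ ∃ j, m + 1 = 2 ^ j := by
  have h0 : (2 * m + 1).choose (m + 1) ≠ 0 := (Nat.choose_pos (by omega)).ne'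
  have a1 := v_choose (2 * m + 1) (m + 1) (by omega)
  rw [show 2 * m + 1 - (m + 1) = m by omega, v_odd] at a1
  have a2 : 2 ^ 1 ∣ (2 * m + 1).choose (m + 1) ↔ 1 ≤ padicValNat 2 ((2 * m + 1).choose (m + 1)) :=
    padicValNat_dvd_iff_le h0
  obtain ⟨c1, c2⟩ := v_lt (m + 1) (by omega)
  rw [Nat.odd_iff]
  constructor
  · intro h
    have : ¬ 1 ≤ padicValNat 2 ((2 * m + 1).choose (m + 1)) := fun c => by
      have := a2.2 c
      clear c2
      omega
    exact c2 (by clear c2 a2; omega)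
  · rintro ⟨j, hj⟩
    have e := (v_pow j).1
    rw [← hj] at e
    have : ¬ 2 ^ 1 ∣ (2 * m + 1).choose (m + 1) := fun c => by
      have := a2.1 c
      clear c2 hj a2
      omega
    clear c2 hj a2
    omega

theorem key (x : ℚ) (u w : ℤ) (hw : Odd w) (h : x * w = u) : Odd x.den ∧ (Odd x.num ↔ Odd u) := by
  have e : x.num * w = u * x.den := by
    have : (x.num : ℚ) * w = u * x.den := by
      rw [← h, ← Rat.mul_den_eq_num x]; ring
    exact_mod_cast this
  have hd : Odd x.den := by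
    by_contra c
    have c2 : Even (x.den : ℤ) := by exact_mod_cast Nat.not_odd_iff_even.1 c
    have c3 : Even (x.num * w) := e ▸ c2.mul_left u
    have c4 : Even x.num := (Int.even_mul.1 c3).resolve_right (Int.not_even_iff_odd.2 hw)
    have c5 : 2 ∣ x.num.natAbs := (Int.natAbs_even.2 c4).two_dvd
    have := Nat.dvd_gcd c5 (Nat.not_odd_iff_even.1 c).two_dvd
    rw [x.reduced] at this
    omega
  have hd' : Odd (x.den : ℤ) := by exact_mod_cast hd
  refine ⟨hd, fun h1 => ?_, fun h1 => ?_⟩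
  · exact (Int.odd_mul.1 (e ▸ h1.mul hw)).1
  · exact (Int.odd_mul.1 (e.symm ▸ h1.mul hd')).1

theorem result (a : ℕ → ℚ) (h1 : a 1 = 2)
    (hrec : ∀ n : ℕ, 2 ≤ n → (2 * (n : ℚ) + 1) ^ 3 * a n = 32 * (n : ℚ) ^ 3 * a (n - 1) +
      (21 * (n : ℚ) ^ 3 + 22 * (n : ℚ) ^ 2 + 8 * n + 1) * ((2 * n - 1).choose n : ℚ) ^ 4)
    (n : ℕ) (hn : 1 ≤ n) :
    Odd (a n).den ∧ (Odd (a n).num ↔ ∃ k : ℕ, 1 ≤ k ∧ n = 2 ^ k) := by
  induction n, hn using Nat.le_induction with
  | base =>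
    rw [h1]
    refine ⟨by decide, fun h => absurd h (by decide), ?_⟩
    rintro ⟨k, hk, e⟩
    have := Nat.pow_le_pow_right (n := 2) (by omega) hk
    omega
  | succ m hm ih =>
    have r := hrec (m + 1) (by omega)
    rw [Nat.add_sub_cancel, show 2 * (m + 1) - 1 = 2 * m + 1 by omega] at r
    have hd : Odd ((a m).den : ℤ) := by exact_mod_cast ih.1
    set c := (2 * m + 1).choose (m + 1) with hc
    have k := key (a (m + 1)) (32 * (m + 1) ^ 3 * (a m).num +
      (21 * (m + 1) ^ 3 + 22 * (m + 1) ^ 2 + 8 * (m + 1) + 1) * c ^ 4 * (a m).den)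
      ((2 * (m + 1) + 1) ^ 3 * (a m).den) ((Odd.pow ⟨(m : ℤ) + 1, rfl⟩).mul hd) (by
        push_cast at r ⊢
        rw [← Rat.mul_den_eq_num (a m)]
        linear_combination ((a m).den : ℚ) * r)
    refine ⟨k.1, k.2.trans ?_⟩
    have ev : Even (32 * ((m : ℤ) + 1) ^ 3 * (a m).num) := ⟨16 * (m + 1) ^ 3 * (a m).num, by ring⟩
    have pp : Odd (21 * ((m : ℤ) + 1) ^ 3 + 22 * (m + 1) ^ 2 + 8 * (m + 1) + 1) ↔ Odd m := by
      rcases Nat.even_or_odd' m with ⟨t, rfl | rfl⟩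
      · refine iff_of_false (Int.not_odd_iff_even.2
          ⟨84 * t ^ 3 + 170 * t ^ 2 + 115 * t + 26, by push_cast; ring⟩) (by simp)
      · refine iff_of_true ⟨84 * (t + 1) ^ 3 + 44 * (t + 1) ^ 2 + 8 * (t + 1), by push_cast; ring⟩
          (by simp)
    rw [Int.odd_add', iff_true_intro ev, iff_true, Int.odd_mul, Int.odd_mul, pp,
      Int.odd_pow' (by norm_num), Int.odd_coe_nat, hc, odd_choose]
    constructor
    · rintro ⟨⟨-, j, hj⟩, -⟩
      refine ⟨j, ?_, hj⟩
      rcases j with _ | j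
      · omega
      · omega
    · rintro ⟨j, hj, e⟩
      refine ⟨⟨?_, j, e⟩, hd⟩
      obtain ⟨i, rfl⟩ : ∃ i, j = i + 1 := ⟨j - 1, by omega⟩
      rw [pow_succ] at e
      exact ⟨2 ^ i - 1, by omega⟩

end Pool.Agent.Results.MP_d51828_nt.TwoAdic
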